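import Mathlib

/-!
# Commutator containment in free groups

If `R` is a normal subgroup and `S` is any subgroup of a noncyclic free group and
`[R, R] ≤ [S, S]`, then `R ≤ S`.
-/

set_option autoImplicit false

namespace Pool.Agent.Results.MP_16b0c2_al.CommContain

open FreeGroup
open scoped commutatorElement

section Chains

universe uX uV

variable {X : Type uX} {V : Type uV} [MulAction (FreeGroup X) V]

/-- one edge of the action graph -/
noncomputable def step (x : X) : Equiv.Perm (V × ((V × X) →₀ ℤ)) where
  toFun p := (of x • p.1, p.2 + Finsupp.single (p.1, x) 1)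
  invFun p := ((of x)⁻¹ • p.1, p.2 - Finsupp.single ((of x)⁻¹ • p.1, x) 1)
  left_inv p := by
    ext1
    · simp
    · simp
  right_inv p := by
    ext1
    · simp
    · simp

/-- the group acts on pairs (vertex, chain) -/
noncomputable def Φ : FreeGroup X →* Equiv.Perm (V × ((V × X) →₀ ℤ)) := FreeGroup.lift step

/-- the chain of the path which reads `g` and starts at `v` -/
noncomputable def c (g : FreeGroup X) (v : V) : (V × X) →₀ ℤ := (Φ g (v, 0)).2

theorem Φ_apply (g : FreeGroup X) : ∀ (v : V) (m : (V × X) →₀ ℤ),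
    Φ g (v, m) = (g • v, m + c g v) := by
  induction g using FreeGroup.induction_on with
  | C1 => intro v m; simp [c]
  | of x =>
    intro v m
    have h : ∀ m, Φ (of x) (v, m) = (of x • v, m + Finsupp.single (v, x) 1) := by
      intro m
      rw [Φ, FreeGroup.lift_apply_of]; rfl
    rw [c, h, h, zero_add]
  | inv_of x _ =>
    intro v m
    have h : ∀ m, Φ (of x)⁻¹ (v, m) =
        ((of x)⁻¹ • v, m - Finsupp.single ((of x)⁻¹ • v, x) 1) := by
      intro m
      rw [_root_.map_inv, Φ, FreeGroup.lift_apply_of]; rfl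
    rw [c, h, h, zero_sub, sub_eq_add_neg]
  | mul g h hg hh =>
    intro v m
    have h : ∀ m, Φ (g * h) (v, m) = (g • h • v, m + c h v + c g (h • v)) := by
      intro m
      rw [_root_.map_mul, Equiv.Perm.mul_apply, hh, hg]
    rw [c, h, h, mul_smul, zero_add, add_assoc]

theorem c_mul (g h : FreeGroup X) (v : V) : c (g * h) v = c h v + c g (h • v) := by
  rw [c, _root_.map_mul, Equiv.Perm.mul_apply, Φ_apply, Φ_apply]
  simp

theorem c_one (v : V) : c (1 : FreeGroup X) v = 0 := by
  simp [c]

theorem c_of (x : X) (v : V) : c (of x) v = Finsupp.single (v, x) 1 := by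
  rw [c, Φ, FreeGroup.lift_apply_of]
  simp [step]

theorem c_inv (g : FreeGroup X) (v : V) : c g⁻¹ v = - c g (g⁻¹ • v) := by
  have h := c_mul g g⁻¹ v
  rw [mul_inv_cancel, c_one] at h
  exact eq_neg_of_add_eq_zero_left h.symm

theorem c_of_inv (x : X) (v : V) : c (of x)⁻¹ v = - Finsupp.single ((of x)⁻¹ • v, x) 1 := by
  rw [c_inv, c_of]

/-- the letter `(x, b)` as an element -/
theorem mk_cons (x : X) (b : Bool) (L : List (X × Bool)) :
    FreeGroup.mk ((x, b) :: L) = FreeGroup.mk [(x, b)] * FreeGroup.mk L := by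
  rw [FreeGroup.mul_mk]; rfl

theorem mk_true (x : X) : FreeGroup.mk [(x, true)] = of x := rfl

theorem mk_false (x : X) : FreeGroup.mk [(x, false)] = (of x)⁻¹ := rfl

theorem mk_append (L L' : List (X × Bool)) :
    FreeGroup.mk (L ++ L') = FreeGroup.mk L * FreeGroup.mk L' := (FreeGroup.mul_mk).symm

/-- an edge with nonzero coefficient is traversed -/
theorem exists_step (L : List (X × Bool)) (v u : V) (x : X)
    (h : c (FreeGroup.mk L) v (u, x) ≠ 0) : ∃ L1 L2 b, L = L1 ++ (x, b) :: L2 ∧
      ((b = true ∧ FreeGroup.mk L2 • v = u) ∨ (b = false ∧ FreeGroup.mk L2 • v = of x • u)) := by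
  classical
  induction L with
  | nil =>
    exfalso; apply h
    change c (1 : FreeGroup X) v (u, x) = 0
    rw [c_one]; rfl
  | cons a L ih =>
    obtain ⟨y, b⟩ := a
    rw [mk_cons, c_mul, Finsupp.add_apply] at h
    by_cases h1 : c (FreeGroup.mk L) v (u, x) = 0
    · rw [h1, zero_add] at h
      cases b with
      | true =>
        rw [mk_true, c_of, Finsupp.single_apply] at h
        have h2 : (FreeGroup.mk L • v, y) = (u, x) := by
          by_contra hne
          rw [if_neg hne] at h
          exact h rfl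
        rw [Prod.mk.injEq] at h2
        refine ⟨[], L, true, ?_, Or.inl ⟨rfl, h2.1⟩⟩
        rw [h2.2]; rfl
      | false =>
        rw [mk_false, c_of_inv, Finsupp.neg_apply, Finsupp.single_apply] at h
        have h2 : ((of y)⁻¹ • FreeGroup.mk L • v, y) = (u, x) := by
          by_contra hne
          rw [if_neg hne] at h
          exact h (by simp)
        rw [Prod.mk.injEq] at h2
        refine ⟨[], L, false, ?_, Or.inr ⟨rfl, ?_⟩⟩
        · rw [h2.2]; rfl
        · rw [← h2.2, ← h2.1, smul_inv_smul]
    · obtain ⟨L1, L2, b', hL, hb⟩ := ih h1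
      exact ⟨(y, b) :: L1, L2, b', by rw [hL]; rfl, hb⟩

/-- only finitely many paths with a given label have a given nonzero chain -/
theorem finite_of_chain (g : FreeGroup X) (z : (V × X) →₀ ℤ) (hz : z ≠ 0) :
    {v : V | c g v = z}.Finite := by
  classical
  obtain ⟨⟨u, x⟩, hux⟩ := Finsupp.ne_iff.1 hz
  simp only [Finsupp.coe_zero, Pi.zero_apply] at hux
  obtain ⟨L, rfl⟩ : ∃ L, g = FreeGroup.mk L := ⟨g.toWord, FreeGroup.mk_toWord.symm⟩
  have hsub : {v : V | c (FreeGroup.mk L) v = z} ⊆
      ⋃ L2 ∈ L.tails.toFinset, {(FreeGroup.mk L2)⁻¹ • u, (FreeGroup.mk L2)⁻¹ • of x • u} := by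
    intro v hv
    have hv' : c (FreeGroup.mk L) v (u, x) ≠ 0 := by
      rw [Set.mem_ofPred_eq] at hv
      rw [hv]; exact hux
    obtain ⟨L1, L2, b, hL, hb⟩ := exists_step L v u x hv'
    rw [Set.mem_iUnion₂]
    refine ⟨L2, ?_, ?_⟩
    · rw [List.mem_toFinset, List.mem_tails]
      exact ⟨L1 ++ [(x, b)], by rw [hL]; simp⟩
    · rcases hb with ⟨_, h⟩ | ⟨_, h⟩
      · left; rw [← h, inv_smul_smul]
      · right; rw [Set.mem_singleton_iff, ← h, inv_smul_smul]
  refine Set.Finite.subset ?_ hsub
  apply Set.Finite.biUnion (Finset.finite_toSet _)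
  intro L2 _
  exact (Set.finite_singleton _).insert _

/-- a closed path with a nontrivial reduced label contains a closed subpath with nonzero chain -/
theorem exists_closed_subpath : ∀ (n : ℕ) (L : List (X × Bool)) (_ : L.length = n)
    (_ : FreeGroup.IsReduced L) (_ : L ≠ []) (v : V) (_ : FreeGroup.mk L • v = v),
    ∃ L1 L2 L3, L = L1 ++ (L2 ++ L3) ∧
      FreeGroup.mk L2 • FreeGroup.mk L3 • v = FreeGroup.mk L3 • v ∧
      c (FreeGroup.mk L2) (FreeGroup.mk L3 • v) ≠ 0 := by
  classical
  intro n
  induction n using Nat.strong_induction_on with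
  | _ n ih =>
  intro L hLn hred hne v hv
  by_cases hprop : ∃ L1 L2 L3, L = L1 ++ (L2 ++ L3) ∧ L2 ≠ [] ∧ L2 ≠ L ∧
      FreeGroup.mk L2 • FreeGroup.mk L3 • v = FreeGroup.mk L3 • v
  · obtain ⟨L1, L2, L3, hL, hL2, hL2', hcl⟩ := hprop
    have hlen : L2.length < n := by
      rw [← hLn]
      rcases Nat.lt_or_ge L2.length L.length with h | h
      · exact h
      · exfalso
        apply hL2'
        have h1 : L.length = L1.length + (L2.length + L3.length) := by
          rw [hL]; simp
        have e1 : L1 = [] := List.eq_nil_of_length_eq_zero (by omega)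
        have e2 : L3 = [] := List.eq_nil_of_length_eq_zero (by omega)
        rw [hL, e1, e2]; simp
    have hred2 : FreeGroup.IsReduced L2 := by
      rw [hL, FreeGroup.IsReduced, List.isChain_append] at hred
      have h2 := hred.2.1
      rw [List.isChain_append] at h2
      exact h2.1
    obtain ⟨M1, M2, M3, hM, hM1, hM2⟩ := ih _ hlen L2 rfl hred2 hL2 _ hcl
    refine ⟨L1 ++ M1, M2, M3 ++ L3, ?_, ?_, ?_⟩
    · rw [hL, hM]; simp
    · rw [mk_append, mul_smul]; exact hM1
    · rw [mk_append, mul_smul]; exact hM2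
  · -- minimal closed path
    have hmin : ∀ L1 L2 L3, L = L1 ++ (L2 ++ L3) → L2 ≠ L →
        FreeGroup.mk L2 • FreeGroup.mk L3 • v = FreeGroup.mk L3 • v → L2 = [] := by
      intro L1 L2 L3 h1 h2 h3
      by_contra h4
      exact hprop ⟨L1, L2, L3, h1, h4, h2, h3⟩
    refine ⟨[], L, [], by simp, ?_, ?_⟩
    · change FreeGroup.mk L • (1 : FreeGroup X) • v = (1 : FreeGroup X) • v
      rw [one_smul]; exact hv
    change c (FreeGroup.mk L) ((1 : FreeGroup X) • v) ≠ 0
    rw [one_smul]
    obtain ⟨⟨x0, b0⟩, L', rfl⟩ := List.exists_cons_of_ne_nil hne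
    rw [mk_cons, c_mul]
    set v1 := FreeGroup.mk L' • v with hv1
    cases b0 with
    | true =>
      have hx : of x0 • v1 = v := by
        rw [mk_cons, mul_smul, ← hv1, mk_true] at hv; exact hv
      rw [mk_true, c_of]
      have h0 : c (FreeGroup.mk L') v (v1, x0) = 0 := by
        by_contra hcoef
        obtain ⟨L1, L2, b, hL, hb⟩ := exists_step L' v v1 x0 hcoef
        rcases hb with ⟨_, h⟩ | ⟨hb, h⟩
        · have := hmin [(x0, true)] (L1 ++ [(x0, b)]) L2 (by rw [hL]; simp) (by
            intro he
            have := congrArg List.length he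
            rw [hL] at this
            simp only [List.length_append, List.length_cons, List.length_nil] at this
            omega) (by
            rw [← mul_smul, ← mk_append, h]
            have e1 : L1 ++ [(x0, b)] ++ L2 = L' := by rw [hL]; simp
            rw [e1])
          simp at this
        · rw [hx] at h
          have h2 := hmin ((x0, true) :: (L1 ++ [(x0, b)])) L2 [] (by rw [hL]; simp) (by
            intro he
            have := congrArg List.length he
            rw [hL] at this
            simp only [List.length_append, List.length_cons, List.length_nil] at this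
            omega) (by
            change FreeGroup.mk L2 • (1 : FreeGroup X) • v = (1 : FreeGroup X) • v
            rw [one_smul]; exact h)
          subst h2
          subst hb
          have h3 := hmin [(x0, true)] L1 [(x0, false)] (by rw [hL]; rfl) (by
            intro he
            have := congrArg List.length he
            rw [hL] at this
            simp only [List.length_append, List.length_cons, List.length_nil] at this
            omega) (by
            have e2 : FreeGroup.mk [(x0, false)] • v = v1 := by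
              rw [mk_false, ← hx, inv_smul_smul]
            rw [← mul_smul, ← mk_append, e2]
            have e1 : L1 ++ [(x0, false)] = L' := by rw [hL]
            rw [e1])
          subst h3
          rw [hL] at hred
          have := (List.isChain_cons_cons.1 hred).1 rfl
          simp at this
      intro hcon
      have := DFunLike.congr_fun hcon (v1, x0)
      rw [Finsupp.add_apply, h0, Finsupp.single_eq_same] at this
      simp at this
    | false =>
      have hx : (of x0)⁻¹ • v1 = v := by
        rw [mk_cons, mul_smul, ← hv1, mk_false] at hv; exact hv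
      have hx' : of x0 • v = v1 := by rw [← hx, smul_inv_smul]
      rw [mk_false, c_of_inv, hx]
      have h0 : c (FreeGroup.mk L') v (v, x0) = 0 := by
        by_contra hcoef
        obtain ⟨L1, L2, b, hL, hb⟩ := exists_step L' v v x0 hcoef
        rcases hb with ⟨hb, h⟩ | ⟨hb, h⟩
        · have h2 := hmin ((x0, false) :: (L1 ++ [(x0, b)])) L2 [] (by rw [hL]; simp) (by
            intro he
            have := congrArg List.length he
            rw [hL] at this
            simp only [List.length_append, List.length_cons, List.length_nil] at this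
            omega) (by
            change FreeGroup.mk L2 • (1 : FreeGroup X) • v = (1 : FreeGroup X) • v
            rw [one_smul]; exact h)
          subst h2
          subst hb
          have h3 := hmin [(x0, false)] L1 [(x0, true)] (by rw [hL]; rfl) (by
            intro he
            have := congrArg List.length he
            rw [hL] at this
            simp only [List.length_append, List.length_cons, List.length_nil] at this
            omega) (by
            have e2 : FreeGroup.mk [(x0, true)] • v = v1 := hx'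
            rw [← mul_smul, ← mk_append, e2]
            have e1 : L1 ++ [(x0, true)] = L' := by rw [hL]
            rw [e1])
          subst h3
          rw [hL] at hred
          have := (List.isChain_cons_cons.1 hred).1 rfl
          simp at this
        · rw [hx'] at h
          have := hmin [(x0, false)] (L1 ++ [(x0, b)]) L2 (by rw [hL]; simp) (by
            intro he
            have := congrArg List.length he
            rw [hL] at this
            simp only [List.length_append, List.length_cons, List.length_nil] at this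
            omega) (by
            rw [← mul_smul, ← mk_append, h]
            have e1 : L1 ++ [(x0, b)] ++ L2 = L' := by rw [hL]; simp
            rw [e1])
          simp at this
      intro hcon
      have := DFunLike.congr_fun hcon (v, x0)
      rw [Finsupp.add_apply, h0, Finsupp.neg_apply, Finsupp.single_eq_same] at this
      simp at this

section Normal

variable (R : Subgroup (FreeGroup X)) [hRn : R.Normal]
  (htr : ∀ v u : V, ∃ r ∈ R, r • v = u)
  (hC : ∀ g ∈ ⁅R, R⁆, ∀ v : V, g • v = v ∧ c g v = 0)

include hC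

omit hRn in
theorem smul_comm' {r s : FreeGroup X} (hr : r ∈ R) (hs : s ∈ R) (v : V) :
    r • s • v = s • r • v := by
  have h := (hC ⁅r, s⁆ (Subgroup.commutator_mem_commutator hr hs) ((s * r) • v)).1
  have e : ⁅r, s⁆ * (s * r) = r * s := by rw [commutatorElement_def]; group
  rw [← mul_smul, e] at h
  rw [← mul_smul, ← mul_smul, h]

omit hRn in
theorem c_comm' {r s : FreeGroup X} (hr : r ∈ R) (hs : s ∈ R) (v : V) :
    c (r * s) v = c (s * r) v := by
  have h := (hC ⁅r, s⁆ (Subgroup.commutator_mem_commutator hr hs) ((s * r) • v)).2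
  have e : r * s = ⁅r, s⁆ * (s * r) := by rw [commutatorElement_def]; group
  rw [e, c_mul, h, add_zero]

include htr

omit hRn in
theorem stab_trivial {t : FreeGroup X} (ht : t ∈ R) {v : V} (hv : t • v = v) (u : V) :
    t • u = u := by
  obtain ⟨r, hr, rfl⟩ := htr v u
  rw [smul_comm' R hC ht hr, hv]

omit hRn in
theorem c_const {t : FreeGroup X} (ht : t ∈ R) {v : V} (hv : t • v = v) (u : V) :
    c t u = c t v := by
  obtain ⟨r, hr, rfl⟩ := htr v u
  have h := c_comm' R hC ht hr v
  rw [c_mul, c_mul, hv] at h
  rw [add_comm (c t v)] at h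
  exact add_left_cancel h

theorem finite_V (hna : ∃ w ∈ ⁅R, R⁆, w ≠ 1) : Finite V := by
  classical
  by_cases hcase : ∃ t ∈ R, ∃ v : V, t • v = v ∧ c t v ≠ 0
  · obtain ⟨t, ht, v, hv, hne⟩ := hcase
    have h1 := finite_of_chain t (c t v) hne
    have h2 : {u : V | c t u = c t v} = Set.univ := by
      ext u; simp [c_const R htr hC ht hv u]
    rw [h2] at h1
    exact Set.finite_univ_iff.1 h1
  · push Not at hcase
    rcases isEmpty_or_nonempty V with hV | ⟨⟨v0⟩⟩
    · infer_instance
    choose ρ hρR hρ using fun u => htr v0 u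
    let p : V → ((V × X) →₀ ℤ) := fun v => c (ρ v) v0
    have heq : ∀ g ∈ R, ∀ h ∈ R, g • v0 = h • v0 → c g v0 = c h v0 := by
      intro g hg h hh hgh
      have h1 : (h⁻¹ * g) • v0 = v0 := by rw [mul_smul, hgh, inv_smul_smul]
      have h2 := hcase (h⁻¹ * g) (R.mul_mem (R.inv_mem hh) hg) v0 h1
      have e : g = h * (h⁻¹ * g) := by group
      rw [e, c_mul, h2, h1, zero_add]
    have hp : ∀ r ∈ R, ∀ v, c r v = p (r • v) - p v := by
      intro r hr v
      have h1 : c (r * ρ v) v0 = c (ρ (r • v)) v0 := by
        apply heq _ (R.mul_mem hr (hρR v)) _ (hρR _)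
        rw [mul_smul, hρ, hρ]
      rw [c_mul, hρ] at h1
      simp only [p]
      rw [← h1]; abel
    let D : FreeGroup X → V → ((V × X) →₀ ℤ) := fun g v => c g v - p (g • v) + p v
    have hD : ∀ g, ∀ r ∈ R, ∀ v, D g (r • v) = D g v := by
      intro g r hr v
      have h1 := c_mul g r v
      have h2 := c_mul (g * r * g⁻¹) g v
      have e : g * r * g⁻¹ * g = g * r := by group
      rw [e, h1, hp r hr v, hp (g * r * g⁻¹) (hRn.conj_mem r hr g) (g • v), ← mul_smul, e] at h2
      simp only [D]
      rw [← mul_smul]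
      have h3 : c g (r • v) = c g v + (p ((g * r) • v) - p (g • v)) - (p (r • v) - p v) := by
        rw [← h2]; abel
      rw [h3]; abel
    have hD' : ∀ g v, D g v = D g v0 := by
      intro g v
      have := hD g (ρ v) (hρR v) v0
      rw [hρ] at this
      exact this
    obtain ⟨w, hw, hw1⟩ := hna
    set L := w.toWord with hL
    have hLne : L ≠ [] := by
      intro h
      exact hw1 (FreeGroup.toWord_eq_nil_iff.1 (hL ▸ h))
    have hmk : FreeGroup.mk L = w := FreeGroup.mk_toWord
    let B : ℕ → ℕ → Set V := fun i k =>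
      {v | D (FreeGroup.mk ((L.drop i).take k)) v0 ≠ 0 ∧
        c (FreeGroup.mk ((L.drop i).take k)) (FreeGroup.mk (L.drop (i + k)) • v) =
          D (FreeGroup.mk ((L.drop i).take k)) v0}
    have hB : ∀ i k, (B i k).Finite := by
      intro i k
      by_cases h0 : D (FreeGroup.mk ((L.drop i).take k)) v0 = 0
      · have : B i k = ∅ := by
          ext v
          simp [B, h0]
        rw [this]; exact Set.finite_empty
      · have h1 := finite_of_chain (V := V) (FreeGroup.mk ((L.drop i).take k)) _ h0
        have h2 := h1.preimage (f := fun v : V => FreeGroup.mk (L.drop (i + k)) • v)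
          (MulAction.injective _).injOn
        refine h2.subset ?_
        intro v hv
        exact hv.2
    have hun : (Set.univ : Set V) ⊆ ⋃ i ∈ Finset.range (L.length + 1),
        ⋃ k ∈ Finset.range (L.length + 1), B i k := by
      intro v _
      obtain ⟨L1, L2, L3, hdec, hcl, hne⟩ := exists_closed_subpath L.length L rfl
        (FreeGroup.isReduced_toWord) hLne v (by rw [hmk]; exact (hC w hw v).1)
      have e1 : (L.drop L1.length).take L2.length = L2 := by
        rw [hdec]; simp
      have e2 : L.drop (L1.length + L2.length) = L3 := by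
        rw [hdec, ← List.append_assoc, ← List.length_append, List.drop_left]
      have hlen : L.length = L1.length + (L2.length + L3.length) := by
        rw [hdec]; simp
      rw [Set.mem_iUnion₂]
      refine ⟨L1.length, by rw [Finset.mem_coe.symm]; simp; omega, ?_⟩
      rw [Set.mem_iUnion₂]
      refine ⟨L2.length, by rw [Finset.mem_coe.symm]; simp; omega, ?_⟩
      have h1 : c (FreeGroup.mk L2) (FreeGroup.mk L3 • v) = D (FreeGroup.mk L2) v0 := by
        rw [← hD' _ (FreeGroup.mk L3 • v)]
        simp only [D]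
        rw [hcl]; abel
      change D (FreeGroup.mk ((L.drop L1.length).take L2.length)) v0 ≠ 0 ∧
        c (FreeGroup.mk ((L.drop L1.length).take L2.length))
          (FreeGroup.mk (L.drop (L1.length + L2.length)) • v) =
          D (FreeGroup.mk ((L.drop L1.length).take L2.length)) v0
      rw [e1, e2]
      exact ⟨h1 ▸ hne, h1⟩
    rw [← Set.finite_univ_iff]
    refine Set.Finite.subset ?_ hun
    apply Set.Finite.biUnion (Finset.finite_toSet _)
    intro i _
    apply Set.Finite.biUnion (Finset.finite_toSet _)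
    intro k _
    exact hB i k

end Normal

section FiniteCase

/-- the sum of all chains with label `g` -/
noncomputable def σ [Fintype V] (g : FreeGroup X) : (V × X) →₀ ℤ := ∑ v : V, c g v

variable [Fintype V]

theorem σ_mul (g h : FreeGroup X) : (σ (g * h) : (V × X) →₀ ℤ) = σ g + σ h := by
  rw [σ, Finset.sum_congr rfl (fun v _ => c_mul g h v), Finset.sum_add_distrib, add_comm]
  congr 1
  exact Equiv.sum_comp (MulAction.toPerm h) (fun v => c g v)

theorem σ_one : (σ (1 : FreeGroup X) : (V × X) →₀ ℤ) = 0 := by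
  rw [σ, Finset.sum_congr rfl (fun v _ => c_one v), Finset.sum_const_zero]

theorem σ_inv (g : FreeGroup X) : (σ g⁻¹ : (V × X) →₀ ℤ) = - σ g := by
  have h := σ_mul (V := V) g g⁻¹
  rw [mul_inv_cancel, σ_one] at h
  exact eq_neg_of_add_eq_zero_right h.symm

theorem σ_pow (g : FreeGroup X) (k : ℕ) : (σ (g ^ k) : (V × X) →₀ ℤ) = k • σ g := by
  induction k with
  | zero => rw [pow_zero, σ_one, zero_smul]
  | succ k ih => rw [pow_succ, σ_mul, ih, succ_nsmul]

theorem c_pow_fix (g : FreeGroup X) (v : V) (hv : g • v = v) (k : ℕ) :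
    g ^ k • v = v ∧ c (g ^ k) v = k • c g v := by
  induction k with
  | zero => rw [pow_zero, one_smul, c_one, zero_smul]; exact ⟨rfl, rfl⟩
  | succ k ih =>
    rw [pow_succ, mul_smul, hv, c_mul, hv, ih.2, succ_nsmul, add_comm]
    exact ⟨ih.1, rfl⟩

theorem c_pow_coeff (x : X) (m : ℕ) (v u : V) (y : X) (h : c (of x ^ m) v (u, y) ≠ 0) :
    y = x ∧ ∃ i : ℕ, of x ^ i • v = u := by
  classical
  induction m with
  | zero => rw [pow_zero, c_one] at h; exact absurd rfl h
  | succ m ih =>
    rw [pow_succ', c_mul, Finsupp.add_apply] at h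
    by_cases h0 : c (of x ^ m) v (u, y) = 0
    · rw [h0, zero_add, c_of, Finsupp.single_apply] at h
      have h2 : (of x ^ m • v, x) = (u, y) := by
        by_contra hne
        rw [if_neg hne] at h
        exact h rfl
      rw [Prod.mk.injEq] at h2
      exact ⟨h2.2.symm, m, h2.1⟩
    · exact ih h0

theorem σ_of (x : X) (u : V) (y : X) [Decidable (y = x)] :
    (σ (of x) : (V × X) →₀ ℤ) (u, y) = if y = x then 1 else 0 := by
  classical
  rw [σ, Finsupp.finsetSum_apply]
  rw [Finset.sum_congr rfl (fun v _ => by rw [c_of, Finsupp.single_apply])]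
  by_cases h : y = x
  · subst h
    simp
  · rw [if_neg h]
    apply Finset.sum_eq_zero
    intro v _
    rw [if_neg]
    intro h'
    rw [Prod.mk.injEq] at h'
    exact h h'.2.symm

variable (R : Subgroup (FreeGroup X)) [hRn : R.Normal]
  (htr : ∀ v u : V, ∃ r ∈ R, r • v = u)
  (hC : ∀ g ∈ ⁅R, R⁆, ∀ v : V, g • v = v ∧ c g v = 0)

include hRn htr hC

theorem c_kernel {k : FreeGroup X} (hk : ∀ u : V, k • u = u) (v u : V) : c k u = c k v := by
  obtain ⟨r, hr, rfl⟩ := htr v u
  set t := k * r * k⁻¹ * r⁻¹ with ht
  have hk' : ∀ u : V, k⁻¹ • u = u := by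
    intro u
    rw [inv_smul_eq_iff, hk]
  have htR : t ∈ R := R.mul_mem (hRn.conj_mem r hr k) (R.inv_mem hr)
  have htriv : ∀ u : V, t • u = u := by
    intro u
    rw [ht, mul_smul, mul_smul, mul_smul, hk', hk, smul_inv_smul]
  have hσ : (σ t : (V × X) →₀ ℤ) = 0 := by
    rw [ht, σ_mul, σ_mul, σ_mul, σ_inv, σ_inv]; abel
  have hct : ∀ u : V, c t u = 0 := by
    intro u
    have h1 : (σ t : (V × X) →₀ ℤ) = Fintype.card V • c t u := by
      rw [σ, Finset.sum_congr rfl (fun w _ => c_const R htr hC htR (htriv u) w),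
        Finset.sum_const, Finset.card_univ]
    rw [hσ] at h1
    have hn : Fintype.card V ≠ 0 := by
      have : 0 < Fintype.card V := Fintype.card_pos_iff.2 ⟨v⟩
      omega
    rcases smul_eq_zero.1 h1.symm with h | h
    · exact absurd h hn
    · exact h
  have e : k * r = t * (r * k) := by rw [ht]; group
  have h2 := c_mul k r v
  rw [e, c_mul, hct, add_zero, c_mul, hk] at h2
  rw [add_comm] at h2
  exact (add_left_cancel h2).symm

theorem c_stab {s : FreeGroup X} {v : V} (hs : s • v = v) :
    Fintype.card V • c s v = σ s := by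
  classical
  obtain ⟨N, hN, hNk⟩ : ∃ N : ℕ, N ≠ 0 ∧ ∀ u : V, s ^ N • u = u := by
    refine ⟨orderOf (MulAction.toPermHom (FreeGroup X) V s), (orderOf_pos _).ne', ?_⟩
    intro u
    have h := pow_orderOf_eq_one (MulAction.toPermHom (FreeGroup X) V s)
    rw [← _root_.map_pow] at h
    have := congrArg (fun f : Equiv.Perm V => f u) h
    simpa using this
  have h1 := c_pow_fix s v hs N
  have h2 : Fintype.card V • c (s ^ N) v = σ (s ^ N) := by
    rw [σ, Finset.sum_congr rfl (fun w _ => c_kernel R htr hC hNk v w),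
      Finset.sum_const, Finset.card_univ]
  rw [h1.2, σ_pow, smul_comm] at h2
  exact smul_right_injective _ hN h2

theorem subsingleton_V [Nontrivial X] : Subsingleton V := by
  classical
  -- the powers of a basis element are transitive
  have hpow : ∀ (x : X) (v u : V), ∃ i : ℕ, of x ^ i • v = u := by
    intro x v u
    obtain ⟨m, hm, hmv⟩ : ∃ m : ℕ, m ≠ 0 ∧ of x ^ m • v = v := by
      refine ⟨orderOf (MulAction.toPermHom (FreeGroup X) V (of x)), (orderOf_pos _).ne', ?_⟩
      have h := pow_orderOf_eq_one (MulAction.toPermHom (FreeGroup X) V (of x))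
      rw [← _root_.map_pow] at h
      have := congrArg (fun f : Equiv.Perm V => f v) h
      simpa using this
    have h1 := c_stab R htr hC hmv
    rw [σ_pow] at h1
    have h2 := DFunLike.congr_fun h1 (u, x)
    rw [Finsupp.smul_apply, Finsupp.smul_apply, σ_of, if_pos rfl] at h2
    have h3 : c (of x ^ m) v (u, x) ≠ 0 := by
      intro h
      rw [h] at h2
      simp at h2
      exact hm (by exact_mod_cast h2.symm)
    exact (c_pow_coeff x m v u x h3).2
  obtain ⟨x, y, hxy⟩ := exists_pair_ne X
  refine ⟨fun v u => ?_⟩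
  by_contra hvu
  obtain ⟨i, hi⟩ := hpow x v (of y • v)
  have hs : ((of x ^ i)⁻¹ * of y) • v = v := by
    rw [mul_smul, ← hi, inv_smul_smul]
  have h1 := c_stab R htr hC hs
  rw [σ_mul, σ_inv, σ_pow, c_mul, c_inv, c_of] at h1
  have h2 := DFunLike.congr_fun h1 (u, y)
  rw [Finsupp.smul_apply, Finsupp.add_apply, Finsupp.add_apply, Finsupp.neg_apply,
    Finsupp.neg_apply, Finsupp.smul_apply, σ_of, σ_of, if_pos rfl, if_neg (Ne.symm hxy),
    Finsupp.single_apply, if_neg (by simp [hvu])] at h2
  have h3 : c (of x ^ i) ((of x ^ i)⁻¹ • of y • v) (u, y) = 0 := by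
    by_contra h
    exact hxy (c_pow_coeff x i _ u y h).1.symm
  rw [h3] at h2
  simp at h2

end FiniteCase

end Chains

/-! ## Cosets -/

section Cosets

universe uX

variable {X : Type uX}

theorem coset_case [Nontrivial X] (R S : Subgroup (FreeGroup X)) [hRn : R.Normal]
    (hRS : ⁅R, R⁆ ≤ ⁅S, S⁆) (hsup : R ⊔ S = ⊤) (hna : ∃ w ∈ ⁅R, R⁆, w ≠ 1) : R ≤ S := by
  classical
  let V := FreeGroup X ⧸ S
  let v0 : V := QuotientGroup.mk 1
  have hv0 : ∀ s ∈ S, s • v0 = v0 := by
    intro s hs
    change (QuotientGroup.mk (s * 1) : V) = QuotientGroup.mk 1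
    rw [QuotientGroup.eq]
    simpa using hs
  have hg0 : ∀ g : FreeGroup X, (QuotientGroup.mk g : V) = g • v0 := by
    intro g
    change _ = (QuotientGroup.mk (g * 1) : V)
    rw [mul_one]
  have htr0 : ∀ u : V, ∃ r ∈ R, r • v0 = u := by
    intro u
    obtain ⟨g, rfl⟩ := QuotientGroup.mk_surjective u
    have hg : g ∈ R ⊔ S := by rw [hsup]; exact Subgroup.mem_top g
    obtain ⟨r, hr, s, hs, rfl⟩ := Subgroup.mem_sup_of_normal_left.1 hg
    refine ⟨r, hr, ?_⟩
    rw [hg0, mul_smul, hv0 s hs]
  have htr : ∀ v u : V, ∃ r ∈ R, r • v = u := by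
    intro v u
    obtain ⟨r, hr, rfl⟩ := htr0 v
    obtain ⟨r', hr', rfl⟩ := htr0 u
    exact ⟨r' * r⁻¹, R.mul_mem hr' (R.inv_mem hr), by rw [mul_smul, inv_smul_smul]⟩
  have hcS : ∀ g ∈ ⁅S, S⁆, c g v0 = 0 := by
    let N : Subgroup (FreeGroup X) :=
      { carrier := {g | g ∈ S ∧ c g v0 = 0}
        mul_mem' := by
          rintro a b ⟨ha, ha'⟩ ⟨hb, hb'⟩
          exact ⟨S.mul_mem ha hb, by rw [c_mul, hv0 b hb, ha', hb', add_zero]⟩
        one_mem' := ⟨S.one_mem, c_one _⟩
        inv_mem' := by
          rintro a ⟨ha, ha'⟩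
          exact ⟨S.inv_mem ha, by rw [c_inv, hv0 _ (S.inv_mem ha), ha', neg_zero]⟩ }
    have hle : ⁅S, S⁆ ≤ N := by
      rw [Subgroup.commutator_le]
      intro a ha b hb
      refine ⟨?_, ?_⟩
      · rw [commutatorElement_def]
        exact S.mul_mem (S.mul_mem (S.mul_mem ha hb) (S.inv_mem ha)) (S.inv_mem hb)
      · rw [commutatorElement_def, c_mul, c_mul, c_mul, hv0 _ (S.inv_mem hb),
          hv0 _ (S.inv_mem ha), hv0 _ hb, c_inv, c_inv, hv0 _ (S.inv_mem hb),
          hv0 _ (S.inv_mem ha)]
        abel
    intro g hg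
    exact (hle hg).2
  have hSS : ⁅S, S⁆ ≤ S := by
    rw [Subgroup.commutator_le]
    intro a ha b hb
    rw [commutatorElement_def]
    exact S.mul_mem (S.mul_mem (S.mul_mem ha hb) (S.inv_mem ha)) (S.inv_mem hb)
  have hC : ∀ g ∈ ⁅R, R⁆, ∀ v : V, g • v = v ∧ c g v = 0 := by
    intro g hg v
    obtain ⟨f, rfl⟩ := QuotientGroup.mk_surjective v
    rw [hg0]
    have hconj : f⁻¹ * g * f ∈ ⁅R, R⁆ := by
      have := (inferInstance : (⁅R, R⁆).Normal).conj_mem g hg f⁻¹
      simpa using this
    have h1 := hRS hconj
    have e : g * f = f * (f⁻¹ * g * f) := by group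
    have h2 : g • f • v0 = f • v0 := by
      rw [← mul_smul, e, mul_smul, hv0 _ (hSS h1)]
    refine ⟨h2, ?_⟩
    have h3 := c_mul g f v0
    rw [e, c_mul, hcS _ h1, zero_add, hv0 _ (hSS h1)] at h3
    have h4 : c f v0 + 0 = c f v0 + c g (f • v0) := by rw [add_zero]; exact h3
    exact (add_left_cancel h4).symm
  have : Finite V := finite_V R htr hC hna
  have : Fintype V := Fintype.ofFinite V
  have : Subsingleton V := subsingleton_V R htr hC
  intro r _
  have h5 : (QuotientGroup.mk 1 : V) = QuotientGroup.mk r := Subsingleton.elim _ _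
  rw [QuotientGroup.eq] at h5
  simpa using h5

end Cosets

/-! ## Free groups of small rank and commuting elements -/

section Small

universe uX

theorem comm_of_subsingleton {X : Type uX} [Subsingleton X] (a b : FreeGroup X) :
    a * b = b * a := by
  have h1 : ∀ (x y : X), Commute (of x) (of y) := by
    intro x y; rw [Subsingleton.elim x y]
  have h2 : ∀ (x : X) (b : FreeGroup X), Commute (of x) b := by
    intro x b
    induction b using FreeGroup.induction_on with
    | C1 => exact Commute.one_right _
    | of y => exact h1 x y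
    | inv_of y _ => exact (h1 x y).inv_right
    | mul g h hg hh => exact hg.mul_right hh
  have h3 : Commute a b := by
    induction a using FreeGroup.induction_on with
    | C1 => exact Commute.one_left _
    | of y => exact h2 y b
    | inv_of y _ => exact (h2 y b).inv_left
    | mul g h hg hh => exact hg.mul_left hh
  exact h3

theorem not_comm {X : Type uX} {x y : X} (hxy : x ≠ y) : of x * of y ≠ of y * of x := by
  classical
  intro h
  let f : X → Equiv.Perm (Fin 3) := fun z => if z = x then Equiv.swap 0 1 else Equiv.swap 1 2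
  have h1 := congrArg (FreeGroup.lift f) h
  rw [_root_.map_mul, _root_.map_mul, FreeGroup.lift_apply_of, FreeGroup.lift_apply_of] at h1
  simp only [f, if_true, if_neg hxy.symm] at h1
  revert h1
  decide

/-- a commutative subgroup of a free group is cyclic -/
theorem cyclic_of_comm {F : Type uX} [Group F] [IsFreeGroup F] (H : Subgroup F)
    (hH : ∀ a ∈ H, ∀ b ∈ H, a * b = b * a) : ∃ g ∈ H, ∀ a ∈ H, ∃ n : ℤ, a = g ^ n := by
  classical
  let e := IsFreeGroup.toFreeGroup H
  have hsub : Subsingleton (IsFreeGroup.Generators H) := by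
    refine ⟨fun x y => ?_⟩
    by_contra hxy
    apply not_comm hxy
    apply e.symm.injective
    rw [_root_.map_mul, _root_.map_mul]
    apply Subtype.ext
    exact hH _ (e.symm (of x)).2 _ (e.symm (of y)).2
  have hgen : ∃ g : FreeGroup (IsFreeGroup.Generators H), ∀ a, ∃ n : ℤ, a = g ^ n := by
    rcases isEmpty_or_nonempty (IsFreeGroup.Generators H) with hE | ⟨⟨x⟩⟩
    · exact ⟨1, fun a => ⟨0, Subsingleton.elim _ _⟩⟩
    · refine ⟨of x, fun a => ?_⟩
      induction a using FreeGroup.induction_on with
      | C1 => exact ⟨0, by simp⟩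
      | of y => exact ⟨1, by rw [Subsingleton.elim y x, zpow_one]⟩
      | inv_of y _ => exact ⟨-1, by rw [Subsingleton.elim y x, zpow_neg_one]⟩
      | mul g h hg hh =>
        obtain ⟨n, hn⟩ := hg
        obtain ⟨m, hm⟩ := hh
        exact ⟨n + m, by rw [hn, hm, zpow_add]⟩
  obtain ⟨g, hg⟩ := hgen
  refine ⟨e.symm g, (e.symm g).2, ?_⟩
  intro a ha
  obtain ⟨n, hn⟩ := hg (e ⟨a, ha⟩)
  refine ⟨n, ?_⟩
  have h1 := congrArg e.symm hn
  rw [MulEquiv.symm_apply_apply, map_zpow] at h1
  have h2 := congrArg Subtype.val h1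
  simpa using h2

theorem cyclic_of_commute {X : Type uX} (a b : FreeGroup X) (hab : a * b = b * a) :
    ∃ (g : FreeGroup X) (m n : ℤ), a = g ^ m ∧ b = g ^ n := by
  have hH : ∀ u ∈ Subgroup.closure ({a, b} : Set (FreeGroup X)),
      ∀ v ∈ Subgroup.closure ({a, b} : Set (FreeGroup X)), u * v = v * u := by
    have h1 : ∀ u ∈ ({a, b} : Set (FreeGroup X)), ∀ v ∈ ({a, b} : Set (FreeGroup X)),
        Commute u v := by
      rintro u (rfl | rfl) v (rfl | rfl)
      · exact Commute.refl _
      · exact hab
      · exact hab.symm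
      · exact Commute.refl _
    have h2 : ∀ u ∈ ({a, b} : Set (FreeGroup X)),
        ∀ v ∈ Subgroup.closure ({a, b} : Set (FreeGroup X)), Commute u v := by
      intro u hu v hv
      induction hv using Subgroup.closure_induction with
      | mem v hv => exact h1 u hu v hv
      | one => exact Commute.one_right _
      | mul v w _ _ hv hw => exact hv.mul_right hw
      | inv v _ hv => exact hv.inv_right
    intro u hu v hv
    have h3 : Commute u v := by
      induction hu using Subgroup.closure_induction with
      | mem u hu => exact h2 u hu v hv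
      | one => exact Commute.one_left _
      | mul v w _ _ hv hw => exact hv.mul_left hw
      | inv v _ hv => exact hv.inv_left
    exact h3
  obtain ⟨g, _, hg⟩ := cyclic_of_comm _ hH
  obtain ⟨m, hm⟩ := hg a (Subgroup.subset_closure (by simp))
  obtain ⟨n, hn⟩ := hg b (Subgroup.subset_closure (by simp))
  exact ⟨g, m, n, hm, hn⟩

/-- a normal commutative subgroup of a noncyclic free group is trivial -/
theorem trivial_of_comm {X : Type uX} [Nontrivial X] (R : Subgroup (FreeGroup X)) [hRn : R.Normal]
    (hR : ∀ a ∈ R, ∀ b ∈ R, a * b = b * a) (r : FreeGroup X) (hr : r ∈ R) : r = 1 := by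
  classical
  obtain ⟨r0, hr0, hgen⟩ := cyclic_of_comm R hR
  have hr1 : r0 = 1 := by
    by_contra hne
    have hinj : ∀ n : ℤ, r0 ^ n = 1 → n = 0 := by
      intro n hn
      exact (IsMulTorsionFree.zpow_eq_one_iff_right hne).1 hn
    have hsq : ∀ g : FreeGroup X, g ^ 2 * r0 = r0 * g ^ 2 := by
      intro g
      obtain ⟨k, hk⟩ := hgen _ (hRn.conj_mem r0 hr0 g)
      obtain ⟨m, hm⟩ := hgen _ (hRn.conj_mem r0 hr0 g⁻¹)
      have h1 : r0 ^ (k * m) = r0 := by
        rw [zpow_mul, ← hk, conj_zpow, ← hm]; group
      have h2 : k * m = 1 := by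
        have : r0 ^ (k * m - 1) = 1 := by
          rw [zpow_sub, h1, zpow_one, mul_inv_cancel]
        have := hinj _ this
        omega
      have h3 : r0 ^ (k * k) = r0 := by
        rcases Int.mul_eq_one_iff_eq_one_or_neg_one.1 h2 with ⟨h, _⟩ | ⟨h, _⟩
        · rw [h]; simp
        · rw [h]; simp
      have h4 : g ^ 2 * r0 * (g ^ 2)⁻¹ = r0 := by
        calc g ^ 2 * r0 * (g ^ 2)⁻¹ = g * (g * r0 * g⁻¹) * g⁻¹ := by
              rw [pow_two, mul_inv_rev]; simp only [mul_assoc]
          _ = g * r0 ^ k * g⁻¹ := by rw [hk]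
          _ = (g * r0 * g⁻¹) ^ k := by rw [conj_zpow]
          _ = r0 ^ (k * k) := by rw [hk, zpow_mul]
          _ = r0 := h3
      calc g ^ 2 * r0 = (g ^ 2 * r0 * (g ^ 2)⁻¹) * g ^ 2 := by group
        _ = r0 * g ^ 2 := by rw [h4]
    obtain ⟨x, y, hxy⟩ := exists_pair_ne X
    obtain ⟨a, i, j, hai, haj⟩ := cyclic_of_commute _ _ (hsq (of x))
    obtain ⟨b, k, l, hbk, hbl⟩ := cyclic_of_commute _ _ (hsq (of y))
    have hi : i ≠ 0 := by
      rintro rfl
      rw [zpow_zero] at hai
      have := (pow_eq_one_iff_left (two_ne_zero)).1 hai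
      exact FreeGroup.of_ne_one x this
    have hk : k ≠ 0 := by
      rintro rfl
      rw [zpow_zero] at hbk
      have := (pow_eq_one_iff_left (two_ne_zero)).1 hbk
      exact FreeGroup.of_ne_one y this
    have e1 : (of x ^ 2) ^ (j * k) = r0 ^ (i * k) := by
      rw [hai, haj, ← zpow_mul, ← zpow_mul]; congr 1; ring
    have e2 : (of y ^ 2) ^ (l * i) = r0 ^ (i * k) := by
      rw [hbk, hbl, ← zpow_mul, ← zpow_mul]; congr 1; ring
    have e3 : (of x ^ 2) ^ (j * k) = (of y ^ 2) ^ (l * i) := by rw [e1, e2]
    let f : FreeGroup X →* Multiplicative ℤ :=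
      FreeGroup.lift (fun z => if z = x then Multiplicative.ofAdd 1 else 1)
    have h5 := congrArg f e3
    rw [map_zpow, map_zpow, _root_.map_pow, _root_.map_pow] at h5
    have fx : f (of x) = Multiplicative.ofAdd 1 := by
      simp only [f]; rw [FreeGroup.lift_apply_of, if_pos rfl]
    have fy : f (of y) = 1 := by
      simp only [f]; rw [FreeGroup.lift_apply_of, if_neg hxy.symm]
    rw [fx, fy, one_pow, one_zpow, ← ofAdd_nsmul, ← ofAdd_zsmul] at h5
    have h6 : (j * k) • ((2 : ℕ) • (1 : ℤ)) = 0 := Multiplicative.ofAdd.injective h5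
    simp only [nsmul_eq_mul, smul_eq_mul] at h6
    have h7 : j * k = 0 := by push_cast at h6; omega
    rcases mul_eq_zero.1 h7 with h | h
    · rw [h, zpow_zero] at haj; exact hne haj
    · exact hk h
  obtain ⟨n, hn⟩ := hgen r hr
  rw [hn, hr1, one_zpow]

end Small

/-! ## The general case -/

section General

universe uX

theorem of_sup {F : Type uX} [Group F] [IsFreeGroup F] (R S : Subgroup F) [hRn : R.Normal]
    (hRS : ⁅R, R⁆ ≤ ⁅S, S⁆) (hsup : R ⊔ S = ⊤) (hna : ∃ w ∈ ⁅R, R⁆, w ≠ 1) : R ≤ S := by
  classical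
  let e := IsFreeGroup.toFreeGroup F
  have hX : Nontrivial (IsFreeGroup.Generators F) := by
    rw [← not_subsingleton_iff_nontrivial]
    intro hs
    obtain ⟨w, hw, hw1⟩ := hna
    apply hw1
    have h0 : ⁅R, R⁆ ≤ ⊥ := by
      rw [Subgroup.commutator_le]
      intro a _ b _
      rw [Subgroup.mem_bot, commutatorElement_eq_one_iff_mul_comm]
      apply e.injective
      rw [_root_.map_mul, _root_.map_mul]
      exact comm_of_subsingleton _ _
    exact Subgroup.mem_bot.1 (h0 hw)
  have hn : (R.map e.toMonoidHom).Normal := hRn.map _ e.surjective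
  have h1 : R.map e.toMonoidHom ≤ S.map e.toMonoidHom := by
    apply coset_case
    · rw [← Subgroup.map_commutator, ← Subgroup.map_commutator]
      exact Subgroup.map_mono hRS
    · rw [← Subgroup.map_sup, hsup]
      exact Subgroup.map_top_of_surjective _ e.surjective
    · obtain ⟨w, hw, hw1⟩ := hna
      refine ⟨e w, ?_, ?_⟩
      · rw [← Subgroup.map_commutator]
        exact ⟨w, hw, rfl⟩
      · intro h
        exact hw1 (e.injective (by rw [h, _root_.map_one]))
  exact (Subgroup.map_le_map_iff_of_injective e.injective).1 h1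

/-- Let `F` be a noncyclic free group, `R` a normal subgroup and `S` an arbitrary subgroup. If
`[R, R] ≤ [S, S]`, then `R ≤ S`. -/
theorem result {X : Type uX} [Nontrivial X] (R S : Subgroup (FreeGroup X)) [R.Normal]
    (h : ⁅R, R⁆ ≤ ⁅S, S⁆) : R ≤ S := by
  classical
  by_cases hab : ∀ a ∈ R, ∀ b ∈ R, a * b = b * a
  · intro r hr
    rw [trivial_of_comm R hab r hr]
    exact S.one_mem
  · push Not at hab
    obtain ⟨a, ha, b, hb, hne⟩ := hab
    let H : Subgroup (FreeGroup X) := R ⊔ S
    have hRH : R ≤ H := le_sup_left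
    have hSH : S ≤ H := le_sup_right
    have hmap : ∀ K : Subgroup (FreeGroup X), K ≤ H → (K.subgroupOf H).map H.subtype = K := by
      intro K hK
      rw [Subgroup.subgroupOf_map_subtype, inf_eq_left]
      exact hK
    have h1 : R.subgroupOf H ≤ S.subgroupOf H := by
      apply of_sup
      · rw [← Subgroup.map_le_map_iff_of_injective H.subtype_injective, Subgroup.map_commutator,
          Subgroup.map_commutator, hmap R hRH, hmap S hSH]
        exact h
      · apply Subgroup.map_injective H.subtype_injective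
        rw [Subgroup.map_sup, hmap R hRH, hmap S hSH, ← MonoidHom.range_eq_map,
          Subgroup.range_subtype]
      · refine ⟨⁅(⟨a, hRH ha⟩ : H), (⟨b, hRH hb⟩ : H)⁆, ?_, ?_⟩
        · apply Subgroup.commutator_mem_commutator
          · exact ha
          · exact hb
        · rw [Ne, commutatorElement_eq_one_iff_mul_comm]
          intro h2
          exact hne (congrArg Subtype.val h2)
    intro r hr
    exact h1 (x := ⟨r, hRH hr⟩) hr

end General

end Pool.Agent.Results.MP_16b0c2_al.CommContain
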